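import Pool.Agent.Run7.h528.MB.Img

/-!
Semiampleness of nef divisors on the finite images, for instance the quotients by finite groups, of
varieties with an abelian group of automorphisms of rank `ρ - k` and `k` invariant blocks of divisor
classes.
-/

set_option autoImplicit false

open FF Pool.Agent.W602.GT Pool.Agent.Y172 Pool.Agent.R887 Pool.Agent.N110 Pool.Agent.N110.CC
open Pool.Agent.N110.DV Run7.h528.MB

/-- Let `X'` be a normal projective variety of dimension `n ≥ 1`, with generic point `y'`. Let the
vectors `c' P` be the classes of the prime divisors in `N¹(X') = ℤ ^ ρ` (if `X'` is `ℚ`-factorial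
then `ρ` is the Picard number of `X'`). Let `ℤ ^ r`, `r ≥ 1`, act on `X'` by automorphisms `f_v`,
given by the automorphisms `φ v = f_v^*` of the function field, and suppose that `f_v` has positive
entropy (the first dynamical degree is greater than `1`) for all `v ≠ 0`. Suppose that `N¹(X')`
contains with finite index a direct sum `Λ_1 ⊕ … ⊕ Λ_k` of groups of rank at least `2` such that
`f_v^*` maps each `Λ_i` into itself, and that `r = ρ - k`. (The classes `u j` are a basis of the sum,
and `u j` is in `Λ_i` for `i = β j`.) The support of a class is the set of the `i` such that its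
component in `Λ_i ⊗ ℝ` is not zero. Let `X'` have irregularity zero (`IrregularityZero`).

Then there are nef divisors `e_1, …, e_k` on `X'`, the class of `e_i` being a nonzero element of
`Λ_i ⊗ ℝ`, such that the following is true for all finite morphisms `X' → X` onto normal projective
varieties `X`, for instance `X = X'` or the quotients by finite groups, given by the homomorphism `π`
of the function fields (more generally, for the morphisms which are finite in codimension one; they
have nothing to do with the maps `f_v`), and for all nef `ℚ`-Cartier divisors `L` on `X`. Let `z` be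
the class of the pull back of `L`, and `s` its support.

* The class `z` and the sum of the `e_i`, `i` in `s`, dominate each other (`HasFace`): for some
  `t ≥ 1` the classes `t z - ∑ e_i` and `t ∑ e_i - z` are nef.
* The divisor `L` is semiample if and only if the sum of the `e_i`, `i` in `s`, is, and therefore if
  the `e_i`, `i` in `s`, are.
* If `s` contains all `i`, then `z` is in the interior of the nef cone of `X'` (the pull back of `L`
  is ample), and `L` is semiample.

So if `e_1, …, e_k` are semiample then all nef `ℚ`-Cartier divisors on all these varieties `X` are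
semiample. -/
theorem Pool.Agent.Results.MP_cda8c3_ag.ImagesOfInvariantBlocks.result
    {K' : Type} [Field K'] [Algebra ℂ K'] {N' n r k ρ : ℕ} {y' : Fin (N' + 1) → K'}
    (hy' : NormalModel y') (hn' : Algebra.trdeg ℂ K' = n) (hn0 : 0 < n) (hr : 0 < r)
    {c' : Place ℂ K' → Fin ρ → ℤ} (hc' : PicardBasis y' c') (hq : IrregularityZero y')
    {φ : (Fin r → ℤ) → (K' ≃ₐ[ℂ] K')} (hφ : ∀ u v, φ (u + v) = φ u * φ v)
    (haut : ∀ v, IsAut (φ v) y') (hent : ∀ v, v ≠ 0 → 1 < dynDegree (φ v) y' n 1)
    {u : Fin ρ → Fin ρ → ℤ} (hu : LinearIndependent ℝ (fun j i => (u j i : ℝ)))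
    {β : Fin ρ → Fin k} (hβ : ∀ i, ∃ j j', j ≠ j' ∧ β j = i ∧ β j' = i) (hρ : ρ = r + k)
    (hbl : ∀ v, PreservesBlocks y' c' u β (φ v)) :
    ∃ e : Fin k → Place ℂ K' → ℤ,
      (∀ i, IsDiv y' (e i) ∧ divClass y' c' (e i) ∈ nefCone y' n c' ∧
        IsBlockSupport u β (divClass y' c' (e i)) {i}) ∧
      ∀ (K : Type) [Field K] [Algebra ℂ K] (N : ℕ) (y : Fin (N + 1) → K) (π : K →ₐ[ℂ] K'),
        NormalModel y → Algebra.trdeg ℂ K = n → IsMorphism π y y' → FiniteMap π y y' →
        ∀ L : Place ℂ K → ℤ, IsDiv y L → IsQCartier y n L → NefD y n (fun P => (L P : ℚ)) →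
          ∃ z s, IsPullBackClass π y' c' (fun P => (L P : ℚ)) z ∧
            HasFace u β (nefCone y' n c') (fun i => divClass y' c' (e i)) z s ∧
            (IsSemiample y n L ↔ IsSemiample y' n (fun P => ∑ i ∈ s, e i P)) ∧
            ((∀ i ∈ s, IsSemiample y' n (e i)) → IsSemiample y n L) ∧
            (s = Finset.univ → z ∈ interior (nefCone y' n c') ∧ IsSemiample y n L) :=
  images_blocks hy' hn' hn0 hr hc' hq hφ haut hent hu hβ hρ hbl
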