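import Pool.Agent.Run7.h913.ST.Thm
import Pool.Agent.N110.DV.Main
import Pool.Agent.N110.DV.Im

/-!
Nef divisors on klt varieties with torsion canonical class, and the groups of birational self-maps of
their covers which preserve the classes of the pullbacks.
-/

set_option autoImplicit false

open FF Pool.Agent.W602.GT Pool.Agent.Y172 Pool.Agent.R887 Pool.Agent.N110 Pool.Agent.N110.DV
open Run7.h528.NR Run7.h913.ST

/-- Let `X` be a normal projective variety of dimension `n ≥ 1` with generic point `y`, for instance a
klt variety with `K_X ∼_ℚ 0` and `H¹(X, 𝓞_X) = 0`, and let `L` be a `ℚ`-divisor on `X`, for instance a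
nef divisor. Let `X' ⇢ X` be a dominant generically finite rational map of normal projective varieties
of dimension `n`, given by the homomorphism `π` of the function fields, which contracts no prime
divisor, and `L'` a `ℚ`-divisor on `X'` such that `L' - π^* L` is pseudo-effective. For instance let
`X' = X` and `L' = L`, or let `X'` be the index one cover of `X` (it has canonical singularities and
`K_X' ∼ 0`), or any other finite cover of `X` which is étale in codimension one, and `L' = π^* L`.

Let the vectors `c P` in `ℤ ^ ρ` be the numerical classes of the prime divisors `P` of `X'` (they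
exist by the theorem of Néron and Severi). Let `G` be any group of isomorphisms in codimension one
of `X'` (they need not be lifts of maps of `X`), given by automorphisms of the function field, which
preserve the numerical class of `L'` (the divisors `L' - g^* L'` are pseudo-effective for all `g` in
`G`), for instance the full stabiliser of the class of `L'` in the group of the pseudo-automorphisms.
If `X'` has terminal singularities and `K_X'` is nef, then `G` may be any group of birational self-maps
with this property.

Then at least one of the following holds: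
* `n ≥ 2`, the numerical dimension and the Iitaka dimension of `L` are at most `n - 2`, and they are
  equal if the Iitaka dimension is at least `n - 2` (if `X` is klt, `K_X ∼_ℚ 0` and `L` is nef, then `L`
  is semiample in this case, by a theorem of Kawamata which is not formalised here);
* `G` is of Mordell-Weil type: there are a normal subgroup `G₀` of finite index in `G`, a surjective
  homomorphism `Φ` from `G₀` onto `ℤ ^ r`, where `r = 0` or `r ≤ ρ - 2`, whose kernel acts trivially
  on the numerical classes of the divisors, and a constant `C` such that the degree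
  `g^* H · H ^ (n - 1)` is at most `C (|Φ g| ^ 2 + 1)` and at least `|Φ g| ^ 2 / C`, for all `g` in
  `G₀`.

So if the numerical dimension of `L` is at least `n - 1`, then on all covers the stabiliser of the class
of the pullback looks like the group of the translations of an elliptic fibration, which `L` defines
if it is semiample and not big. -/
theorem Pool.Agent.Results.MP_cda8c3_ag.StabilizersOnCovers.result
    {K K' : Type} [Field K] [Algebra ℂ K] [Field K'] [Algebra ℂ K'] {N N' n : ℕ}
    {y : Fin (N + 1) → K} {y' : Fin (N' + 1) → K'} (hy : NormalModel y) (hy' : NormalModel y')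
    (hn : Algebra.trdeg ℂ K = n) (hn' : Algebra.trdeg ℂ K' = n) (hn0 : 0 < n)
    {L : Place ℂ K → ℚ} {L' : Place ℂ K' → ℚ}
    (hL' : {P | IsPrimeDivisor y' P ∧ L' P ≠ 0}.Finite) {π : K →ₐ[ℂ] K'}
    (hπ : ImgClassLe π y L y' L') {ρ : ℕ} {c : Place ℂ K' → Fin ρ → ℤ} (hc : NumClasses y' c)
    (G : Subgroup (K' ≃ₐ[ℂ] K'))
    (hG : (TerminalPair y' n 0 ∧ LogNef y' n 0) ∨ ∀ g ∈ G, PseudoAut g y')
    (hcl : ∀ g ∈ G, ClassLe g y' L') :
    (1 < n ∧ NuLt y n L (n - 1) ∧ ¬ IitakaGe y L (n - 1) ∧
      (IitakaGe y L (n - 2) → AbundantD y n L)) ∨ MordellWeil y' n c G := by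
  have hiso : ∀ g ∈ G, PseudoAut g y' := by
    rcases hG with ⟨hT, hnef⟩ | h
    · have hz : ∀ P : Place ℂ K', IsPrimeDivisor y' P → (0 : ℚ) ≤ (0 : Place ℂ K' → ℚ) P :=
        fun _ _ => le_rfl
      exact fun g _ => pseudo_of_terminal hy' hn' hz hT hnef (pullLe_terminal hy' hn' hT g)
        (pullLe_terminal hy' hn' hT g.symm)
    · exact h
  rcases mw_D hy' hn' hn0 hc hL' G hiso hcl with ⟨h1, h2⟩ | h
  · have key := nuLt_img hy hy' hn hn' hπ (Nat.sub_le n 1) h2
    refine Or.inl ⟨h1, key, iitaka_lt hy hn (Nat.sub_le _ _) key, fun h => ⟨n - 2, h, ?_⟩⟩
    rwa [show n - 2 + 1 = n - 1 by omega]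
  · exact Or.inr h
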